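import Pool.Agent.Helper20.KP.StHB

/-! # Project KP, module HB5: transfer of functions -/

set_option autoImplicit false

namespace Pool.Agent.Helper40.KP.HB5

open MeasureTheory Filter Pool.Agent.Helper52.KP Pool.Agent.Helper67.NO Pool.Agent.Helper20.KP
open scoped Topology

universe u

section

variable {g : Type u} [LieRing g] [LieAlgebra ℂ g] [FiniteDimensional ℂ g]

lemma co_eq (x : g) : co x = (Module.finBasis ℂ g).equivFun x := rfl

lemma co_ic (v : Fin (Module.finrank ℂ g) → ℂ) : co (ic v : g) = v := by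
  rw [co_eq]
  exact (Module.finBasis ℂ g).equivFun.apply_symm_apply v

lemma ic_co (x : g) : ic (co x) = x := by
  rw [co_eq]
  exact (Module.finBasis ℂ g).equivFun.symm_apply_apply x

lemma co_smul (c : ℂ) (x : g) : co (c • x) = c • co x := by
  rw [co_eq, co_eq, map_smul]

lemma ext_of {x₀ : g} (f : OO x₀ → ℂ) {x : g} (h : Orb x₀ x) : ext f x = f ⟨x, h⟩ := by
  unfold ext
  rw [dif_pos h]

lemma tf_co {x₀ : g} (f : OO x₀ → ℂ) {x : g} (h : Orb x₀ x) : tf f (co x) = f ⟨x, h⟩ := by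
  unfold tf
  rw [ic_co, ext_of f h]

end

/-- MODULE HB5 -/
theorem hHB5 (hHLC : StHLC.{u}) (hORB : StORB.{u}) : StHB5.{u} := by
  intro g _ _ _ _ x₀ hx₀ hnil C k
  obtain ⟨_, _, _, hch, _, _, hlast⟩ := hORB g
  have hOm : ∀ v : Fin (Module.finrank ℂ g) → ℂ, v ∈ (mkOD C).O ↔ ∃ y, Orb x₀ y ∧ co y = v :=
    fun v => Iff.rfl
  refine ⟨?_, ?_⟩
  · intro f hf
    refine ⟨?_, ?_, fun x => tf_co f x.2⟩
    · intro p Ω γ hΩ hγ hmap
      have h1 : ∀ z ∈ Ω, Orb x₀ (ic (γ z) : g) := by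
        intro z hz
        obtain ⟨y, hy, hyz⟩ := (hOm (γ z)).1 (hmap hz)
        rw [← hyz, ic_co]
        exact hy
      have h2 : HolMap Ω (fun z => (ic (γ z) : g)) := by
        unfold HolMap
        have e : (fun z => co (ic (γ z) : g)) = γ := by
          funext z
          exact co_ic _
        rw [e]
        exact hγ
      exact hHLC g x₀ hx₀ hnil p Ω hΩ (fun z => (ic (γ z) : g)) h2 h1 k f hf
    · intro v hv c hc
      obtain ⟨y, hy, hyv⟩ := (hOm v).1 hv
      have hcy : Orb x₀ (c • y) := (hlast x₀ y hx₀ hnil hy).2 c hc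
      have e1 : c • v = co (c • y) := by rw [co_smul, hyv]; rfl
      rw [e1, ← hyv, tf_co f hcy, tf_co f hy]
      exact hf.2 ⟨y, hy⟩ ⟨c • y, hcy⟩ c hc rfl
  · intro F hF hFh
    refine ⟨?_, ?_⟩
    · intro x kk X
      have h1 := (hch kk x.1 X).1
      have h2 := hF kk Set.univ (fun w => co (chart x.1 X w)) isOpen_univ h1
        (fun w _ => (hOm _).2 ⟨chart x.1 X w, Orb.step _ _ x.2, rfl⟩)
      exact differentiableOn_univ.1 h2
    · intro x y c hc hy
      show F (co y.1) = c ^ k * F (co x.1)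
      rw [hy, co_smul]
      exact hFh (co x.1) ((hOm _).2 ⟨x.1, x.2, rfl⟩) c hc

end Pool.Agent.Helper40.KP.HB5
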