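import Pool.Agent.Helper20.KP.StH

/-! # Project KP, module HDS: the discriminant hypersurface -/

set_option autoImplicit false

namespace Pool.Agent.Helper40.KP.HDS

open MeasureTheory Filter Pool.Agent.Helper52.KP Pool.Agent.Helper20.KP
open scoped Topology

lemma ev_aeval {m n : ℕ} (ψ : Fin n → MvPolynomial (Fin m) ℂ) (c : MvPolynomial (Fin n) ℂ)
    (z : Fin m → ℂ) :
    ev (MvPolynomial.aeval ψ c) z = MvPolynomial.eval (fun i => ev (ψ i) z) c := by
  have h := MvPolynomial.eval₂Hom_bind₁ (RingHom.id ℂ) z ψ c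
  have e : MvPolynomial.bind₁ ψ c = MvPolynomial.aeval ψ c := rfl
  rw [e] at h
  exact h

/-- MODULE HDS -/
theorem hHDS (hHAL : StHAL) (hHOC : StHOC) (hHDN : StHDN) : StHDS := by
  intro D hD Y hY
  obtain ⟨hyp, hjac, _⟩ := hHDN D hD Y hY
  obtain ⟨_, hal⟩ := hHAL D.m (D.yp Y) hjac
  obtain ⟨z₁, hz₁, _⟩ := hY.rk
  have hYc : Continuous Y := LinearMap.continuous_of_finiteDimensional Y
  have hph : Continuous D.ph :=
    continuous_pi fun i => MvPolynomial.continuous_eval (D.Φ i)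
  have hevY : ∀ (c : MvPolynomial (Fin D.m) ℂ) (z : Fin D.m → ℂ),
      ev (MvPolynomial.aeval (D.yp Y) c) z = ev c (Y (D.ph z)) := by
    intro c z
    rw [ev_aeval]
    congr 1
    congr 1
    funext i
    exact hyp i z
  have hphO : D.ph '' D.U ⊆ D.O := by
    rintro _ ⟨z, hz, rfl⟩
    exact hD.phO z hz
  -- part 1: the boundary
  obtain ⟨i₀, hi₀⟩ := (hD.Qb (D.ph z₁) (subset_closure (hD.phO z₁ hz₁))).1 (hD.phO z₁ hz₁)
  obtain ⟨q, hq⟩ : ∃ q : MvPolynomial (Fin D.m) ℂ, q = MvPolynomial.aeval D.Φ (D.Q i₀) := ⟨_, rfl⟩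
  have hqz : ∀ z, ev q z = MvPolynomial.eval (D.ph z) (D.Q i₀) := by
    intro z
    rw [hq, ev_aeval]
    rfl
  have hq0 : q ≠ 0 := by
    intro h
    have h1 : MvPolynomial.eval z₁ q = MvPolynomial.eval (D.ph z₁) (D.Q i₀) := hqz z₁
    rw [h, map_zero] at h1
    exact hi₀ h1.symm
  obtain ⟨r, c, hc0, hc⟩ := hal q 1 hq0 one_ne_zero
  have hF1 : ∀ z, ∑ i ∈ Finset.range (r + 1), ev (c i) (Y (D.ph z)) *
      MvPolynomial.eval (D.ph z) (D.Q i₀) ^ i = 0 := by
    intro z
    have h := congrArg (fun p => ev p z) hc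
    simp only [map_sum, map_mul, map_pow, one_pow, mul_one, map_zero] at h
    rw [← h]
    refine Finset.sum_congr rfl fun i _ => ?_
    rw [← hqz z]
    congr 1
    exact (hevY (c i) z).symm
  have hF1c : Continuous fun x : Fin D.N → ℂ => ∑ i ∈ Finset.range (r + 1), ev (c i) (Y x) *
      MvPolynomial.eval x (D.Q i₀) ^ i :=
    continuous_finsetSum _ fun i _ => ((MvPolynomial.continuous_eval (c i)).comp hYc).mul
      ((MvPolynomial.continuous_eval (D.Q i₀)).pow i)
  have hcl : closure D.O ⊆ closure (D.ph '' D.U) := closure_minimal hD.dense isClosed_closure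
  have hF1O : ∀ x ∈ closure D.O, ∑ i ∈ Finset.range (r + 1), ev (c i) (Y x) *
      MvPolynomial.eval x (D.Q i₀) ^ i = 0 := by
    intro x hx
    have hcs : IsClosed {x : Fin D.N → ℂ | ∑ i ∈ Finset.range (r + 1), ev (c i) (Y x) *
      MvPolynomial.eval x (D.Q i₀) ^ i = 0} := isClosed_eq hF1c continuous_const
    have hsub : D.ph '' D.U ⊆ {x : Fin D.N → ℂ | ∑ i ∈ Finset.range (r + 1), ev (c i) (Y x) *
      MvPolynomial.eval x (D.Q i₀) ^ i = 0} := by
      rintro _ ⟨z, _, rfl⟩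
      exact hF1 z
    exact closure_minimal hsub hcs (hcl hx)
  -- part 2: the ramification
  obtain ⟨S, hS, hSJ, hSi⟩ := hD.ram Y
  have hJ0 : D.J ≠ 0 := by
    intro h
    have := hD.J0 z₁ hz₁
    rw [h] at this
    exact this (map_zero _)
  obtain ⟨r', c', hc0', hc'⟩ := hal (jac (D.yp Y)) D.J hjac hJ0
  have hF2 : ∀ z ∈ D.U, ∑ i ∈ Finset.range (r' + 1), ev (c' i) (Y (D.ph z)) *
      S (D.ph z) ^ i = 0 := by
    intro z hz
    have h := congrArg (fun p => ev p z) hc'
    simp only [map_sum, map_mul, map_pow, map_zero] at h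
    have hJz := hD.J0 z hz
    have h2 : (∑ i ∈ Finset.range (r' + 1), ev (c' i) (Y (D.ph z)) * S (D.ph z) ^ i) *
        ev D.J z ^ r' = 0 := by
      rw [← h, Finset.sum_mul]
      refine Finset.sum_congr rfl fun i hi => ?_
      have hir : i ≤ r' := by
        have := Finset.mem_range.1 hi
        omega
      have e1 : MvPolynomial.eval z (MvPolynomial.aeval (D.yp Y) (c' i)) =
          ev (c' i) (Y (D.ph z)) := hevY (c' i) z
      have e2 : MvPolynomial.eval z (jac (D.yp Y)) = S (D.ph z) * ev D.J z := (hSJ z hz).symm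
      have e3 : ev D.J z ^ r' = ev D.J z ^ i * ev D.J z ^ (r' - i) := by
        rw [← pow_add, Nat.add_sub_cancel' hir]
      rw [e1, e2, e3, mul_pow]
      ring
    exact (mul_eq_zero.1 h2).resolve_right (pow_ne_zero _ hJz)
  have hSc : ContinuousOn S D.O := (hHOC D hD).1 S hS
  have hF2c : ContinuousOn (fun x => ∑ i ∈ Finset.range (r' + 1), ev (c' i) (Y x) * S x ^ i)
      D.O :=
    continuousOn_finsetSum _ fun i _ =>
      ((MvPolynomial.continuous_eval (c' i)).comp hYc).continuousOn.mul (hSc.pow i)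
  have hF2O : ∀ x ∈ D.O, ∑ i ∈ Finset.range (r' + 1), ev (c' i) (Y x) * S x ^ i = 0 := by
    intro x hx
    have h1 : ContinuousWithinAt (fun x => ∑ i ∈ Finset.range (r' + 1), ev (c' i) (Y x) * S x ^ i)
        (D.ph '' D.U) x := (hF2c x hx).mono hphO
    have h2 : Set.MapsTo (fun x => ∑ i ∈ Finset.range (r' + 1), ev (c' i) (Y x) * S x ^ i)
        (D.ph '' D.U) {0} := by
      rintro _ ⟨z, hz, rfl⟩
      exact hF2 z hz
    have h3 := h1.mem_closure (hD.dense hx) h2
    rwa [closure_singleton, Set.mem_singleton_iff] at h3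
  have hfirst : ∀ (n : ℕ) (f : ℕ → ℂ), ∑ i ∈ Finset.range (n + 1), f i * (0 : ℂ) ^ i = f 0 := by
    intro n f
    rw [Finset.sum_range_succ']
    simp
  refine ⟨c 0 * c' 0, mul_ne_zero hc0 hc0', ?_⟩
  intro x hx hDc'
  have hDc : MvPolynomial.eval (Y x) (c 0 * c' 0) ≠ 0 := hDc'
  rw [map_mul] at hDc
  have hA := left_ne_zero_of_mul hDc
  have hB := right_ne_zero_of_mul hDc
  have hxO : x ∈ D.O := by
    by_contra hn
    have h1 : MvPolynomial.eval x (D.Q i₀) = 0 := by
      by_contra h2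
      exact hn ((hD.Qb x hx).2 ⟨i₀, h2⟩)
    have h2 := hF1O x hx
    rw [h1, hfirst r fun i => ev (c i) (Y x)] at h2
    exact hA h2
  refine ⟨hxO, hSi x hxO ?_⟩
  intro h0
  have h2 := hF2O x hxO
  rw [h0, hfirst r' fun i => ev (c' i) (Y x)] at h2
  exact hB h2

end Pool.Agent.Helper40.KP.HDS
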