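import Pool.Agent.Helper52.KP.StM

/-! # Project KP, module CUT: cutoff functions -/

set_option autoImplicit false

namespace Pool.Agent.Helper40.KP.CUT

open MeasureTheory Filter Pool.Agent.Helper52.KP
open scoped ContDiff ComplexOrder Topology

/-- the cutoff function of one variable -/
noncomputable def th (s : ℝ) : ℝ := Real.smoothTransition (2 - s)

lemma th_cd : ContDiff ℝ ∞ th :=
  Real.smoothTransition.contDiff.comp (contDiff_const.sub contDiff_id)

lemma th_nonneg (s : ℝ) : 0 ≤ th s := Real.smoothTransition.nonneg _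
lemma th_le (s : ℝ) : th s ≤ 1 := Real.smoothTransition.le_one _
lemma th_one {s : ℝ} (h : s ≤ 1) : th s = 1 := Real.smoothTransition.one_of_one_le (by linarith)
lemma th_zero {s : ℝ} (h : 2 ≤ s) : th s = 0 := Real.smoothTransition.zero_of_nonpos (by linarith)

lemma th_der (s : ℝ) : HasDerivAt th (deriv th s) s :=
  ((th_cd.differentiable (by simp)) s).hasDerivAt

lemma th_der_lt {s : ℝ} (h : s < 1) : deriv th s = 0 := by
  have : th =ᶠ[𝓝 s] fun _ => 1 := by
    filter_upwards [gt_mem_nhds h] with x hx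
    exact th_one hx.le
  rw [this.deriv_eq]; simp

lemma th_der_gt {s : ℝ} (h : 2 < s) : deriv th s = 0 := by
  have : th =ᶠ[𝓝 s] fun _ => 0 := by
    filter_upwards [lt_mem_nhds h] with x hx
    exact th_zero hx.le
  rw [this.deriv_eq]; simp

lemma th_bd : ∃ L : ℝ, 0 ≤ L ∧ ∀ s, |deriv th s| ≤ L := by
  have hc : Continuous (deriv th) := th_cd.continuous_deriv (by simp)
  obtain ⟨L, hL⟩ := (isCompact_Icc (a := (1:ℝ)) (b := 2)).exists_bound_of_continuousOn hc.continuousOn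
  refine ⟨max L 0, le_max_right _ _, fun s => ?_⟩
  rcases lt_or_ge s 1 with h | h
  · rw [th_der_lt h]; simp
  rcases lt_or_ge 2 s with h2 | h2
  · rw [th_der_gt h2]; simp
  · exact (hL s ⟨h, h2⟩).trans (le_max_left _ _)

/-- first factor -/
noncomputable def g1 (N s : ℝ) : ℝ := th (s / N)
/-- second factor -/
noncomputable def g2 (N t : ℝ) : ℝ := th (t / N) * th (1 / (N * t))

noncomputable def d1 (N s : ℝ) : ℝ := deriv th (s / N) * (1 / N)
noncomputable def d2 (N t : ℝ) : ℝ :=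
  deriv th (t / N) * (1 / N) * th (1 / (N * t)) +
    th (t / N) * (deriv th (1 / (N * t)) * (-(N / (N * t) ^ 2)))

lemma g1_der (N s : ℝ) : HasDerivAt (g1 N) (d1 N s) s := by
  have h := (th_der (s / N)).comp s ((hasDerivAt_id s).div_const N)
  exact h

lemma g2_der {N t : ℝ} (hN : 0 < N) (ht : 0 < t) : HasDerivAt (g2 N) (d2 N t) t := by
  have h1 := g1_der N t
  have h3 : HasDerivAt (fun t : ℝ => 1 / (N * t)) (-(N / (N * t) ^ 2)) t := by
    have h4 : HasDerivAt (fun t : ℝ => N * t) N t := by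
      simpa using (hasDerivAt_id t).const_mul N
    have h5 := h4.inv (mul_pos hN ht).ne'
    have e : (fun t : ℝ => 1 / (N * t)) = (fun t : ℝ => N * t)⁻¹ := by
      funext x; simp
    rw [e]
    convert! h5 using 1
    ring
  have h2 := (th_der (1 / (N * t))).comp t h3
  exact h1.mul h2

lemma d1_bd {L : ℝ} (hL : ∀ s, |deriv th s| ≤ L) {N : ℝ} (hN : 0 < N) (s : ℝ) :
    d1 N s ^ 2 ≤ (L / N) ^ 2 := by
  have h0 : 0 ≤ L := (abs_nonneg _).trans (hL 0)
  unfold d1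
  rw [← sq_abs, abs_mul, abs_of_nonneg (by positivity : (0:ℝ) ≤ 1 / N)]
  have : |deriv th (s / N)| * (1 / N) ≤ L / N := by
    rw [mul_one_div]
    exact div_le_div_of_nonneg_right (hL _) hN.le
  exact pow_le_pow_left₀ (by positivity) this 2

lemma d1_zero {N : ℝ} (hN : 0 < N) {s : ℝ} (h : 2 * N < s) : d1 N s = 0 := by
  unfold d1
  rw [th_der_gt, zero_mul]
  rw [lt_div_iff₀ hN]; linarith

lemma d2_bd {L : ℝ} (hL : ∀ s, |deriv th s| ≤ L) {N t : ℝ} (hN : 0 < N) (ht : 0 < t) :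
    d2 N t ^ 2 * t ≤ 2 * (L / N) ^ 2 * t + if t ≤ 1 / N then 8 * L ^ 2 / t else 0 := by
  have h0 : 0 ≤ L := (abs_nonneg _).trans (hL 0)
  obtain ⟨A, hA⟩ : ∃ A, A = deriv th (t / N) * (1 / N) * th (1 / (N * t)) := ⟨_, rfl⟩
  obtain ⟨B, hB⟩ : ∃ B, B = th (t / N) * (deriv th (1 / (N * t)) * (-(N / (N * t) ^ 2))) :=
    ⟨_, rfl⟩
  have hd : d2 N t = A + B := by rw [hA, hB]; rfl
  have hA2 : A ^ 2 ≤ (L / N) ^ 2 := by
    have h1 : A ^ 2 = d1 N t ^ 2 * th (1 / (N * t)) ^ 2 := by rw [hA]; unfold d1; ring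
    rw [h1]
    have h2 : th (1 / (N * t)) ^ 2 ≤ 1 := pow_le_one₀ (th_nonneg _) (th_le _)
    calc d1 N t ^ 2 * th (1 / (N * t)) ^ 2 ≤ d1 N t ^ 2 * 1 :=
          mul_le_mul_of_nonneg_left h2 (sq_nonneg _)
      _ ≤ (L / N) ^ 2 := by rw [mul_one]; exact d1_bd hL hN t
  have hB2 : B ^ 2 * t ≤ if t ≤ 1 / N then 4 * L ^ 2 / t else 0 := by
    by_cases hder : deriv th (1 / (N * t)) = 0
    · have : B = 0 := by rw [hB, hder]; ring
      rw [this]
      split_ifs
      · have : 0 ≤ 4 * L ^ 2 / t := by positivity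
        simpa using this
      · simp
    · have h1 : 1 ≤ 1 / (N * t) := by
        by_contra hh
        exact hder (th_der_lt (not_le.1 hh))
      have h2 : 1 / (N * t) ≤ 2 := by
        by_contra hh
        exact hder (th_der_gt (not_le.1 hh))
      have hNt : 0 < N * t := mul_pos hN ht
      have h3 : N * t ≤ 1 := by
        rwa [le_div_iff₀ hNt, one_mul] at h1
      have h4 : 1 ≤ 2 * (N * t) := by
        rwa [div_le_iff₀ hNt] at h2
      have h5 : t ≤ 1 / N := by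
        rw [le_div_iff₀ hN]; linarith
      rw [if_pos h5]
      have h6 : B ^ 2 ≤ L ^ 2 * (N / (N * t) ^ 2) ^ 2 := by
        have e : B ^ 2 = th (t / N) ^ 2 * (deriv th (1 / (N * t)) ^ 2 * (N / (N * t) ^ 2) ^ 2) := by
          rw [hB]; ring
        rw [e]
        have h7 : th (t / N) ^ 2 ≤ 1 := pow_le_one₀ (th_nonneg _) (th_le _)
        have h8 : deriv th (1 / (N * t)) ^ 2 ≤ L ^ 2 := by
          rw [← sq_abs]; exact pow_le_pow_left₀ (abs_nonneg _) (hL _) 2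
        calc th (t / N) ^ 2 * (deriv th (1 / (N * t)) ^ 2 * (N / (N * t) ^ 2) ^ 2)
            ≤ 1 * (L ^ 2 * (N / (N * t) ^ 2) ^ 2) := by
              apply mul_le_mul h7 _ (by positivity) zero_le_one
              exact mul_le_mul_of_nonneg_right h8 (sq_nonneg _)
          _ = _ := one_mul _
      have h9 : (N / (N * t) ^ 2) ^ 2 * t ≤ 4 / t := by
        have e : (N / (N * t) ^ 2) ^ 2 * t = 1 / (N * t) ^ 2 / t := by
          field_simp
        rw [e]
        apply div_le_div_of_nonneg_right _ ht.le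
        rw [div_le_iff₀ (by positivity)]
        nlinarith
      calc B ^ 2 * t ≤ L ^ 2 * (N / (N * t) ^ 2) ^ 2 * t :=
            mul_le_mul_of_nonneg_right h6 ht.le
        _ = L ^ 2 * ((N / (N * t) ^ 2) ^ 2 * t) := by ring
        _ ≤ L ^ 2 * (4 / t) := mul_le_mul_of_nonneg_left h9 (sq_nonneg _)
        _ = 4 * L ^ 2 / t := by ring
  have hsum : d2 N t ^ 2 * t ≤ 2 * (A ^ 2 * t) + 2 * (B ^ 2 * t) := by
    rw [hd]
    nlinarith [mul_nonneg (sq_nonneg (A - B)) ht.le]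
  have hA3 : A ^ 2 * t ≤ (L / N) ^ 2 * t := mul_le_mul_of_nonneg_right hA2 ht.le
  split_ifs at hB2 ⊢ with hc
  · have e : 8 * L ^ 2 / t = 2 * (4 * L ^ 2 / t) := by ring
    rw [e]
    linarith
  · linarith

/-- convergence of nonnegative integrals -/
lemma conv_lemma {α : Type*} [MeasurableSpace α] (μ : Measure α) (f : ℕ → α → ℝ) (r : ℕ → ℝ)
    (hm : ∀ i, AEStronglyMeasurable (f i) μ) (h0 : ∀ i, 0 ≤ᵐ[μ] f i)
    (hr : ∀ i, ∫⁻ z, ENNReal.ofReal (f i z) ∂μ ≤ ENNReal.ofReal (r i))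
    (ht : Tendsto r atTop (𝓝 0)) :
    (∀ i, Integrable (f i) μ) ∧ Tendsto (fun i => ∫ z, f i z ∂μ) atTop (𝓝 0) := by
  constructor
  · intro i
    refine ⟨hm i, ?_⟩
    rw [hasFiniteIntegral_iff_ofReal (h0 i)]
    exact (hr i).trans_lt ENNReal.ofReal_lt_top
  · have e : (fun i => ∫ z, f i z ∂μ) =
        fun i => (∫⁻ z, ENNReal.ofReal (f i z) ∂μ).toReal := by
      funext i
      exact integral_eq_lintegral_of_nonneg_ae (h0 i) (hm i)
    rw [e]
    have h1 : Tendsto (fun i => ENNReal.ofReal (r i)) atTop (𝓝 0) := by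
      have := ENNReal.tendsto_ofReal ht
      simpa using this
    have h2 : Tendsto (fun i => ∫⁻ z, ENNReal.ofReal (f i z) ∂μ) atTop (𝓝 0) :=
      tendsto_of_tendsto_of_tendsto_of_le_of_le tendsto_const_nhds h1 (fun _ => zero_le) hr
    have h3 := (ENNReal.tendsto_toReal ENNReal.zero_ne_top).comp h2
    simpa [Function.comp_def] using h3


/-! ### the cutoff functions -/

lemma g1_cd (N : ℝ) : ContDiff ℝ ∞ (g1 N) := th_cd.comp (contDiff_id.div_const N)

lemma g2_cd {N t : ℝ} (hN : 0 < N) (ht : 0 < t) : ContDiffAt ℝ ∞ (g2 N) t := by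
  have h1 : ContDiffAt ℝ ∞ (fun t : ℝ => 1 / (N * t)) t :=
    contDiffAt_const.div (contDiffAt_const.mul contDiffAt_id) (mul_pos hN ht).ne'
  exact (g1_cd N).contDiffAt.mul (th_cd.contDiffAt.comp t h1)

lemma g1_nonneg (N s : ℝ) : 0 ≤ g1 N s := th_nonneg _
lemma g1_le (N s : ℝ) : g1 N s ≤ 1 := th_le _
lemma g2_nonneg (N s : ℝ) : 0 ≤ g2 N s := mul_nonneg (th_nonneg _) (th_nonneg _)
lemma g2_le (N s : ℝ) : g2 N s ≤ 1 := mul_le_one₀ (th_le _) (th_nonneg _) (th_le _)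

lemma Uopen (C : Cone) : IsOpen C.U := by
  have : C.U = (fun z => ev C.Δ z) ⁻¹' {0}ᶜ := rfl
  rw [this]
  exact isOpen_compl_singleton.preimage (MvPolynomial.continuous_eval C.Δ)

lemma upos {C : Cone} (hC : Good C) {z : Fin C.m → ℂ} (hz : z ∈ C.U) : 0 < C.u z := by
  obtain ⟨a, b, ha, hab⟩ := hC.ubd
  exact (mul_pos ha (hC.Xpos z hz)).trans_le (hab z hz).1

lemma sz_cont (C : Cone) : Continuous C.sz :=
  continuous_finsetSum _ fun i _ => (MvPolynomial.continuous_eval (C.X i)).norm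

open Classical in
/-- the cutoff functions -/
noncomputable def chi (C : Cone) (N : ℝ) (z : Fin C.m → ℂ) : ℝ :=
  if z ∈ C.U then g1 N (C.vv z) * g2 N (C.u z) else 0

/-- the compact sets -/
lemma cut_compact {C : Cone} (hC : Good C) {N : ℝ} (hN : 0 < N) :
    ∃ K ⊆ C.U, IsCompact K ∧ ∀ z ∈ C.U, C.vv z < 2 * N → C.u z < 2 * N → 1 / (2 * N) < C.u z →
      z ∈ K := by
  obtain ⟨a, b, ha, hab⟩ := hC.ubd
  obtain ⟨r, hr⟩ : ∃ r, r = 2 * N / a := ⟨_, rfl⟩
  have hr0 : 0 < r := by rw [hr]; positivity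
  have hsz : ∀ z ∈ C.U, C.u z < 2 * N → C.sz z ≤ r := by
    intro z hz hu
    rw [hr, le_div_iff₀ ha]
    have := (hab z hz).1
    linarith
  obtain ⟨B1, hB1⟩ := hC.bdd _ _ hC.p1R
  choose B2 hB2 using fun i => hC.bdd _ _ (hC.QR i)
  obtain ⟨P, hP⟩ : ∃ P, P = |B1| * r ^ C.d₁ + 1 := ⟨_, rfl⟩
  have hP0 : 0 < P := by rw [hP]; positivity
  obtain ⟨S, hS⟩ : ∃ S, S = ∑ i, |B2 i| * r ^ C.dq + 1 := ⟨_, rfl⟩
  have hS0 : 0 < S := by rw [hS]; positivity
  have hszn : ∀ z, 0 ≤ C.sz z := fun z => Finset.sum_nonneg fun i _ => norm_nonneg _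
  have hp : ∀ z, C.sz z ≤ r → ‖ev C.p₁ z‖ ≤ P := by
    intro z hz
    calc ‖ev C.p₁ z‖ ≤ B1 * C.sz z ^ C.d₁ := hB1 z
      _ ≤ |B1| * C.sz z ^ C.d₁ :=
          mul_le_mul_of_nonneg_right (le_abs_self _) (pow_nonneg (hszn z) _)
      _ ≤ |B1| * r ^ C.d₁ :=
          mul_le_mul_of_nonneg_left (pow_le_pow_left₀ (hszn z) hz _) (abs_nonneg _)
      _ ≤ P := by rw [hP]; linarith
  have hq : ∀ z, C.sz z ≤ r → ∑ i, ‖ev (C.Q i) z‖ ≤ S := by
    intro z hz
    have : ∑ i, ‖ev (C.Q i) z‖ ≤ ∑ i, |B2 i| * r ^ C.dq := by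
      apply Finset.sum_le_sum
      intro i _
      calc ‖ev (C.Q i) z‖ ≤ B2 i * C.sz z ^ C.dq := hB2 i z
        _ ≤ |B2 i| * C.sz z ^ C.dq :=
            mul_le_mul_of_nonneg_right (le_abs_self _) (pow_nonneg (hszn z) _)
        _ ≤ |B2 i| * r ^ C.dq :=
            mul_le_mul_of_nonneg_left (pow_le_pow_left₀ (hszn z) hz _) (abs_nonneg _)
    rw [hS]; linarith
  obtain ⟨M, hM⟩ : ∃ M : ℝ, M = 2 * C.d₁ + 2 * C.dq := ⟨_, rfl⟩
  have hM0 : 0 ≤ M := by rw [hM]; positivity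
  obtain ⟨η, hη⟩ : ∃ η, η = Real.exp ((M * Real.log (1 / (2 * N)) - 2 * N) / 2) := ⟨_, rfl⟩
  have hη0 : 0 < η := by rw [hη]; exact Real.exp_pos _
  have key : ∀ z ∈ C.U, C.vv z < 2 * N → 1 / (2 * N) < C.u z →
      η ≤ ‖ev C.p₁ z‖ * ∑ i, ‖ev (C.Q i) z‖ := by
    intro z hz hv hu
    have hx : 0 < ‖ev C.p₁ z‖ := norm_pos_iff.2 (hC.p10 z hz)
    have hy : 0 < ∑ i, ‖ev (C.Q i) z‖ ^ 2 := by
      obtain ⟨i, hi⟩ := hC.Q0 z hz
      exact Finset.sum_pos' (fun i _ => sq_nonneg _)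
        ⟨i, Finset.mem_univ i, by have := norm_pos_iff.2 hi; positivity⟩
    have hys : ∑ i, ‖ev (C.Q i) z‖ ^ 2 ≤ (∑ i, ‖ev (C.Q i) z‖) ^ 2 :=
      Finset.sum_sq_le_sq_sum_of_nonneg fun i _ => norm_nonneg _
    have hs0 : 0 ≤ ∑ i, ‖ev (C.Q i) z‖ := Finset.sum_nonneg fun i _ => norm_nonneg _
    have h1 : M * Real.log (1 / (2 * N)) - 2 * N ≤
        Real.log (‖ev C.p₁ z‖ ^ 2 * ∑ i, ‖ev (C.Q i) z‖ ^ 2) := by
      rw [Real.log_mul (by positivity) hy.ne']
      have h2 : C.vv z = M * Real.log (C.u z) - Real.log (‖ev C.p₁ z‖ ^ 2) -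
        Real.log (∑ i, ‖ev (C.Q i) z‖ ^ 2) := by rw [hM]; rfl
      have h3 : Real.log (1 / (2 * N)) ≤ Real.log (C.u z) :=
        Real.log_le_log (by positivity) hu.le
      have h4 := mul_le_mul_of_nonneg_left h3 hM0
      linarith
    have h5 : η ^ 2 ≤ (‖ev C.p₁ z‖ * ∑ i, ‖ev (C.Q i) z‖) ^ 2 := by
      have e : η ^ 2 = Real.exp (M * Real.log (1 / (2 * N)) - 2 * N) := by
        rw [hη, ← Real.exp_nat_mul]
        congr 1
        push_cast
        ring
      rw [e]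
      calc Real.exp (M * Real.log (1 / (2 * N)) - 2 * N)
          ≤ Real.exp (Real.log (‖ev C.p₁ z‖ ^ 2 * ∑ i, ‖ev (C.Q i) z‖ ^ 2)) :=
            Real.exp_le_exp.2 h1
        _ = ‖ev C.p₁ z‖ ^ 2 * ∑ i, ‖ev (C.Q i) z‖ ^ 2 := Real.exp_log (by positivity)
        _ ≤ ‖ev C.p₁ z‖ ^ 2 * (∑ i, ‖ev (C.Q i) z‖) ^ 2 :=
            mul_le_mul_of_nonneg_left hys (sq_nonneg _)
        _ = _ := by ring
    exact le_of_sq_le_sq h5 (mul_nonneg hx.le hs0)
  obtain ⟨δ, hδ⟩ : ∃ δ, δ = min (η / S) (η / P) := ⟨_, rfl⟩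
  have hδ0 : 0 < δ := by rw [hδ]; exact lt_min (by positivity) (by positivity)
  refine ⟨{z | z ∈ C.U ∧ C.sz z ≤ r ∧ δ ≤ ‖ev C.p₁ z‖ ∧ δ ≤ ∑ i, ‖ev (C.Q i) z‖},
    fun z hz => hz.1, hC.cpt r δ hδ0, ?_⟩
  intro z hz hv hu hu'
  have h1 := hsz z hz hu
  have h2 := key z hz hv hu'
  have h3 := hp z h1
  have h4 := hq z h1
  refine ⟨hz, h1, ?_, ?_⟩
  · refine (hδ ▸ min_le_left _ _ : δ ≤ η / S).trans ?_
    rw [div_le_iff₀ hS0]
    exact h2.trans (mul_le_mul_of_nonneg_left h4 (norm_nonneg _))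
  · refine (hδ ▸ min_le_right _ _ : δ ≤ η / P).trans ?_
    rw [div_le_iff₀ hP0]
    refine h2.trans ?_
    rw [mul_comm]
    exact mul_le_mul_of_nonneg_left h3 (Finset.sum_nonneg fun i _ => norm_nonneg _)

lemma chi_supp {C : Cone} (hC : Good C) {N : ℝ} (hN : 0 < N) :
    ∃ K ⊆ C.U, IsCompact K ∧ tsupport (chi C N) ⊆ K := by
  obtain ⟨K, hK, hKc, h⟩ := cut_compact hC hN
  refine ⟨K, hK, hKc, closure_minimal ?_ hKc.isClosed⟩
  intro z hz
  rw [Function.mem_support] at hz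
  unfold chi at hz
  by_cases hzU : z ∈ C.U
  · rw [if_pos hzU] at hz
    have hup := upos hC hzU
    refine h z hzU ?_ ?_ ?_
    · by_contra hh
      refine hz ?_
      have : g1 N (C.vv z) = 0 := th_zero (by rw [le_div_iff₀ hN]; linarith)
      rw [this, zero_mul]
    · by_contra hh
      refine hz ?_
      have : th (C.u z / N) = 0 := th_zero (by rw [le_div_iff₀ hN]; linarith)
      unfold g2
      rw [this]; ring
    · by_contra hh
      refine hz ?_
      have : th (1 / (N * C.u z)) = 0 := by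
        apply th_zero
        rw [le_div_iff₀ (mul_pos hN hup)]
        rw [not_lt, le_div_iff₀ (by positivity)] at hh
        linarith
      unfold g2
      rw [this]; ring
  · rw [if_neg hzU] at hz
    exact absurd rfl hz

lemma chi_cd {C : Cone} (hC : Good C) (hv : ContDiffOn ℝ ∞ C.vv C.U) {N : ℝ} (hN : 0 < N) :
    ContDiff ℝ ∞ (chi C N) := by
  obtain ⟨K, hK, hKc, h⟩ := chi_supp hC hN
  rw [contDiff_iff_contDiffAt]
  intro z
  by_cases hz : z ∈ C.U
  · have hn := (Uopen C).mem_nhds hz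
    have e : chi C N =ᶠ[𝓝 z] fun x => g1 N (C.vv x) * g2 N (C.u x) := by
      filter_upwards [hn] with x hx
      unfold chi
      rw [if_pos hx]
    refine ContDiffAt.congr_of_eventuallyEq ?_ e
    exact ((g1_cd N).contDiffAt.comp z (hv.contDiffAt hn)).mul
      ((g2_cd hN (upos hC hz)).comp z (hC.usm.contDiffAt hn))
  · have h1 : z ∉ tsupport (chi C N) := fun hh => hz (hK (h hh))
    rw [notMem_tsupport_iff_eventuallyEq] at h1
    exact contDiffAt_const.congr_of_eventuallyEq h1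

lemma scl_mem {C : Cone} (hC : Good C) {c : ℂ} (hc : c ≠ 0) (z : Fin C.m → ℂ) :
    scl C.w c z ∈ C.U ↔ z ∈ C.U := by
  refine ⟨fun h => ?_, fun h => hC.sclU c hc z h⟩
  have h1 := hC.sclU c⁻¹ (inv_ne_zero hc) _ h
  have e : scl C.w c⁻¹ (scl C.w c z) = z := by
    funext j
    simp only [scl]
    rw [← mul_assoc, ← mul_pow, inv_mul_cancel₀ hc, one_pow, one_mul]
  rwa [e] at h1

/-- `db` of a real function -/
lemma db_cf {m : ℕ} {ψ : (Fin m → ℂ) → ℝ} {D : (Fin m → ℂ) →L[ℝ] ℝ} {z : Fin m → ℂ}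
    (h : HasFDerivAt ψ D z) (j : Fin m) :
    db j (cf ψ) z = ((D (Pi.single j 1) : ℂ) + Complex.I * (D (Pi.single j Complex.I) : ℂ)) / 2 := by
  have h1 : HasFDerivAt (cf ψ) (Complex.ofRealCLM.comp D) z :=
    Complex.ofRealCLM.hasFDerivAt.comp z h
  unfold db
  rw [h1.fderiv]
  rfl

lemma db_chi {C : Cone} (hC : Good C) (hv : ContDiffOn ℝ ∞ C.vv C.U) {N : ℝ} (hN : 0 < N)
    {z : Fin C.m → ℂ} (hz : z ∈ C.U) (j : Fin C.m) :
    db j (cf (chi C N)) z =
      ((d1 N (C.vv z) * g2 N (C.u z) : ℝ) : ℂ) * db j (cf C.vv) z +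
      ((g1 N (C.vv z) * d2 N (C.u z) : ℝ) : ℂ) * db j (cf C.u) z := by
  have hn := (Uopen C).mem_nhds hz
  have hv1 : HasFDerivAt C.vv (fderiv ℝ C.vv z) z :=
    ((hv.contDiffAt hn).differentiableAt (by simp)).hasFDerivAt
  have hu1 : HasFDerivAt C.u (fderiv ℝ C.u z) z :=
    ((hC.usm.contDiffAt hn).differentiableAt (by simp)).hasFDerivAt
  have h1 := (g1_der N (C.vv z)).comp_hasFDerivAt z hv1
  have h2 := (g2_der hN (upos hC hz)).comp_hasFDerivAt z hu1
  have h3 := h1.mul h2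
  have e : chi C N =ᶠ[𝓝 z] fun x => g1 N (C.vv x) * g2 N (C.u x) := by
    filter_upwards [hn] with x hx
    unfold chi
    rw [if_pos hx]
  have h4 : HasFDerivAt (chi C N) _ z := h3.congr_of_eventuallyEq e
  rw [db_cf h4, db_cf hv1, db_cf hu1]
  simp only [add_apply, smul_apply, smul_eq_mul,
    Function.comp_apply]
  push_cast
  ring

/-- the function `κ` -/
noncomputable def kap (C : Cone) (N : ℝ) (z : Fin C.m → ℂ) : ℝ :=
  2 * (d1 N (C.vv z) * g2 N (C.u z)) ^ 2 *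
      (C.en (fun j => db j (cf C.vv) z) z / ‖ev C.J z‖ ^ 2) +
    2 * (g1 N (C.vv z) * d2 N (C.u z)) ^ 2 * C.u z

lemma J2pos {C : Cone} (hC : Good C) {z : Fin C.m → ℂ} (hz : z ∈ C.U) :
    0 < ‖ev C.J z‖ ^ 2 := by
  have := norm_pos_iff.2 (hC.J0 z hz)
  positivity

lemma kap_nonneg {C : Cone} (hC : Good C) (hCSD : StCSD) (N : ℝ) {z : Fin C.m → ℂ}
    (hz : z ∈ C.U) : 0 ≤ kap C N z := by
  have h1 := (hCSD C hC z hz (fun j => db j (cf C.vv) z)).1
  have h2 := J2pos hC hz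
  have h3 := upos hC hz
  unfold kap
  positivity

lemma hf_nonneg {C : Cone} (hC : Good C) {z : Fin C.m → ℂ} (hz : z ∈ C.U) (ξ : Fin C.m → ℂ) :
    0 ≤ hf (hes C.u z) ξ := by
  by_cases h : ξ = 0
  · subst h
    simp [hf]
  · exact ((hC.uhes z hz).1.2 ξ h).le

lemma kap_cs {C : Cone} (hC : Good C) (hCSD : StCSD) (hv : ContDiffOn ℝ ∞ C.vv C.U) {N : ℝ}
    (hN : 0 < N) {z : Fin C.m → ℂ} (hz : z ∈ C.U) (ξ : Fin C.m → ℂ) :
    ‖∑ j, db j (cf (chi C N)) z * star (ξ j)‖ ^ 2 ≤ kap C N z * hf (hes C.u z) ξ := by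
  obtain ⟨α, hα⟩ : ∃ α : ℝ, α = d1 N (C.vv z) * g2 N (C.u z) := ⟨_, rfl⟩
  obtain ⟨β, hβ⟩ : ∃ β : ℝ, β = g1 N (C.vv z) * d2 N (C.u z) := ⟨_, rfl⟩
  have hdb : (fun j => db j (cf (chi C N)) z) =
      fun j => (α : ℂ) * db j (cf C.vv) z + (β : ℂ) * db j (cf C.u) z := by
    funext j
    rw [db_chi hC hv hN hz j, hα, hβ]
  have hJ := J2pos hC hz
  have hh := hf_nonneg hC hz ξ
  have h1 := (hCSD C hC z hz (fun j => db j (cf (chi C N)) z)).2.1 ξ
  have h2 : C.en (fun j => db j (cf (chi C N)) z) z ≤ kap C N z * ‖ev C.J z‖ ^ 2 := by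
    rw [hdb]
    have h3 := (hCSD C hC z hz (fun j => (α : ℂ) * db j (cf C.vv) z)).2.2.1
      (fun j => (β : ℂ) * db j (cf C.u) z)
    have h4 := (hCSD C hC z hz (fun j => db j (cf C.vv) z)).2.2.2.1 (α : ℂ)
    have h5 := (hCSD C hC z hz (fun j => db j (cf C.u) z)).2.2.2.1 (β : ℂ)
    have h6 := (hCSD C hC z hz (fun j => db j (cf C.u) z)).2.2.2.2
    rw [h4, h5, h6, Complex.norm_real, Complex.norm_real, Real.norm_eq_abs, Real.norm_eq_abs,
      sq_abs, sq_abs] at h3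
    refine h3.trans (le_of_eq ?_)
    have h8 : C.en (fun j => db j (cf C.vv) z) z / ‖ev C.J z‖ ^ 2 * ‖ev C.J z‖ ^ 2 =
        C.en (fun j => db j (cf C.vv) z) z := div_mul_cancel₀ _ hJ.ne'
    unfold kap
    rw [← hα, ← hβ]
    linear_combination (-(2 * α ^ 2)) * h8
  have h7 : ‖∑ j, db j (cf (chi C N)) z * star (ξ j)‖ ^ 2 * ‖ev C.J z‖ ^ 2 ≤
      kap C N z * hf (hes C.u z) ξ * ‖ev C.J z‖ ^ 2 := by
    refine h1.trans ?_
    calc C.en (fun j => db j (cf (chi C N)) z) z * hf (hes C.u z) ξ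
        ≤ kap C N z * ‖ev C.J z‖ ^ 2 * hf (hes C.u z) ξ := mul_le_mul_of_nonneg_right h2 hh
      _ = _ := by ring
  exact le_of_mul_le_mul_right h7 hJ

lemma cf_cd {m : ℕ} {ψ : (Fin m → ℂ) → ℝ} {U : Set (Fin m → ℂ)} (h : ContDiffOn ℝ ∞ ψ U) :
    ContDiffOn ℝ ∞ (cf ψ) U := Complex.ofRealCLM.contDiff.comp_contDiffOn h

lemma en_cont {C : Cone} (hC : Good C) (hCAL : StCAL) {v : (Fin C.m → ℂ) → ℝ}
    (hv : ContDiffOn ℝ ∞ v C.U) :
    ContinuousOn (fun z => C.en (fun j => db j (cf v) z) z) C.U := by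
  have hU := Uopen C
  have hcd : ∀ (f : (Fin C.m → ℂ) → ℂ) (j : Fin C.m), ContDiffOn ℝ ∞ f C.U →
      ContDiffOn ℝ ∞ (dz j f) C.U ∧ ContDiffOn ℝ ∞ (db j f) C.U := fun f j hf =>
    (hCAL C.m j j f f 0).2.2.2.2 C.U hU hf
  have h1 : ∀ j, ContinuousOn (db j (cf v)) C.U := fun j => (hcd _ j (cf_cd hv)).2.continuousOn
  have h2 : ∀ j k, ContinuousOn (fun z => hes C.u z j k) C.U := fun j k =>
    (hcd _ j (hcd _ k (cf_cd hC.usm)).2).1.continuousOn
  have h3 : ContinuousOn (fun z => hes C.u z) C.U :=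
    continuousOn_pi.2 fun j => continuousOn_pi.2 fun k => h2 j k
  have h4 : ContinuousOn (fun z => (hes C.u z).adjugate) C.U :=
    continuous_id.matrix_adjugate.comp_continuousOn h3
  have h5 : ∀ k j, ContinuousOn (fun z => (hes C.u z).adjugate k j) C.U := fun k j =>
    (continuous_apply_apply k j).comp_continuousOn h4
  unfold Cone.en
  refine Complex.continuous_re.comp_continuousOn ?_
  refine continuousOn_finsetSum _ fun k _ => continuousOn_finsetSum _ fun j _ => ?_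
  exact ((h5 k j).mul (h1 k)).mul (continuous_star.comp_continuousOn (h1 j))

lemma d1_cont (N : ℝ) : Continuous (d1 N) := by
  have hc : Continuous (deriv th) := th_cd.continuous_deriv (by simp)
  unfold d1
  exact (hc.comp (continuous_id.div_const N)).mul continuous_const

lemma d2_cont {N : ℝ} (hN : 0 < N) : ContinuousOn (d2 N) (Set.Ioi 0) := by
  have hc : Continuous (deriv th) := th_cd.continuous_deriv (by simp)
  have ht : Continuous th := th_cd.continuous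
  have h1 : ContinuousOn (fun t : ℝ => 1 / (N * t)) (Set.Ioi 0) :=
    continuousOn_const.div (continuousOn_const.mul continuousOn_id)
      fun t ht => (mul_pos hN ht).ne'
  have h2 : ContinuousOn (fun t : ℝ => -(N / (N * t) ^ 2)) (Set.Ioi 0) :=
    (continuousOn_const.div ((continuousOn_const.mul continuousOn_id).pow 2)
      fun t ht => (pow_pos (mul_pos hN ht) 2).ne').neg
  have h3 : Continuous (fun t : ℝ => t / N) := continuous_id.div_const N
  unfold d2
  exact (((hc.comp h3).mul continuous_const).continuousOn.mul (ht.comp_continuousOn h1)).add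
    ((ht.comp h3).continuousOn.mul ((hc.comp_continuousOn h1).mul h2))

lemma kap_cont {C : Cone} (hC : Good C) (hCAL : StCAL) (hv : ContDiffOn ℝ ∞ C.vv C.U) {N : ℝ}
    (hN : 0 < N) : ContinuousOn (kap C N) C.U := by
  have hu := hC.usm.continuousOn
  have hvc := hv.continuousOn
  have hJ : ContinuousOn (fun z => ‖ev C.J z‖ ^ 2) C.U :=
    (MvPolynomial.continuous_eval C.J).norm.continuousOn.pow 2
  have hg1 : ContinuousOn (fun z => g1 N (C.vv z)) C.U :=
    (g1_cd N).continuous.comp_continuousOn hvc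
  have hg2 : ContinuousOn (fun z => g2 N (C.u z)) C.U := by
    intro z hz
    exact (g2_cd hN (upos hC hz)).continuousAt.comp_continuousWithinAt (hu z hz)
  have hd1 : ContinuousOn (fun z => d1 N (C.vv z)) C.U := (d1_cont N).comp_continuousOn hvc
  have hd2 : ContinuousOn (fun z => d2 N (C.u z)) C.U :=
    (d2_cont hN).comp hu fun z hz => upos hC hz
  have hen := (en_cont hC hCAL hv).div hJ fun z hz => (J2pos hC hz).ne'
  unfold kap
  exact ((continuousOn_const.mul ((hd1.mul hg2).pow 2)).mul hen).add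
    ((continuousOn_const.mul ((hg1.mul hd2).pow 2)).mul hu)

/-- pointwise estimate -/
lemma kap_bd {C : Cone} (hC : Good C) (hCSD : StCSD) {L : ℝ} (hL : ∀ s, |deriv th s| ≤ L)
    {a0 : ℝ} (ha0 : 0 < a0) (hab : ∀ z ∈ C.U, a0 * C.sz z ≤ C.u z) (a : ℕ) {N : ℝ} (hN : 1 ≤ N)
    {z : Fin C.m → ℂ} (hz : z ∈ C.U) :
    kap C N z * (1 + C.sz z ^ a) * Real.exp (-C.u z) * ‖ev C.J z‖ ^ 2 ≤
      (if C.vv z ≤ 2 * N then 2 * (L / N) ^ 2 * (1 + (a0⁻¹) ^ a) *
        (C.en (fun j => db j (cf C.vv) z) z * ((1 + C.u z ^ a) * Real.exp (-C.u z))) else 0) +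
      (4 * (L / N) ^ 2 * (1 + (a0⁻¹) ^ a) *
        (C.u z ^ 1 * Real.exp (-C.u z) * ‖ev C.J z‖ ^ 2 +
          C.u z ^ (a + 1) * Real.exp (-C.u z) * ‖ev C.J z‖ ^ 2) +
      (if C.u z ≤ 1 / N then 32 * L ^ 2 * (1 + (a0⁻¹) ^ a) *
        ((C.u z)⁻¹ * Real.exp (-C.u z) * ‖ev C.J z‖ ^ 2) else 0)) := by
  have hN0 : 0 < N := by linarith
  have hen := (hCSD C hC z hz (fun j => db j (cf C.vv) z)).1
  obtain ⟨e, he⟩ : ∃ e, e = C.en (fun j => db j (cf C.vv) z) z := ⟨_, rfl⟩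
  rw [← he] at hen ⊢
  have hJ := J2pos hC hz
  obtain ⟨J2, hJ2⟩ : ∃ J2, J2 = ‖ev C.J z‖ ^ 2 := ⟨_, rfl⟩
  have hkap : kap C N z = 2 * (d1 N (C.vv z) * g2 N (C.u z)) ^ 2 * (e / J2) +
    2 * (g1 N (C.vv z) * d2 N (C.u z)) ^ 2 * C.u z := by rw [he, hJ2]; rfl
  rw [← hJ2] at hJ ⊢
  have hu := upos hC hz
  have hsz := (hC.Xpos z hz).le
  have hW : 1 + C.sz z ^ a ≤ (1 + (a0⁻¹) ^ a) * (1 + C.u z ^ a) := by
    have h1 : C.sz z ≤ a0⁻¹ * C.u z := by
      rw [inv_mul_eq_div, le_div_iff₀ ha0, mul_comm]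
      exact hab z hz
    have h2 : C.sz z ^ a ≤ (a0⁻¹) ^ a * C.u z ^ a := by
      rw [← mul_pow]
      exact pow_le_pow_left₀ hsz h1 a
    have h3 : 0 ≤ (a0⁻¹) ^ a := by positivity
    have h4 : 0 ≤ C.u z ^ a := by positivity
    linarith
  obtain ⟨K, hK⟩ : ∃ K, K = 1 + (a0⁻¹) ^ a := ⟨_, rfl⟩
  have hK0 : 0 ≤ K := by rw [hK]; positivity
  rw [← hK] at hW ⊢
  obtain ⟨W, hWd⟩ : ∃ W, W = 1 + C.sz z ^ a := ⟨_, rfl⟩
  have hW0 : 0 ≤ W := by rw [hWd]; positivity
  rw [← hWd] at hW ⊢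
  obtain ⟨E, hE⟩ : ∃ E, E = Real.exp (-C.u z) := ⟨_, rfl⟩
  have hE0 : 0 < E := by rw [hE]; exact Real.exp_pos _
  rw [← hE]
  obtain ⟨t, ht⟩ : ∃ t, t = C.u z := ⟨_, rfl⟩
  rw [← ht] at hu hW hkap ⊢
  obtain ⟨v, hvd⟩ : ∃ v, v = C.vv z := ⟨_, rfl⟩
  rw [← hvd] at hkap ⊢
  have hta : 0 ≤ t ^ a := by positivity
  have hsplit : kap C N z * W * E * J2 =
      2 * (d1 N v * g2 N t) ^ 2 * e * W * E + 2 * (g1 N v * d2 N t) ^ 2 * t * W * E * J2 := by
    rw [hkap]
    field_simp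
  rw [hsplit]
  have hg2 : g2 N t ^ 2 ≤ 1 := pow_le_one₀ (g2_nonneg _ _) (g2_le _ _)
  have hg1 : g1 N v ^ 2 ≤ 1 := pow_le_one₀ (g1_nonneg _ _) (g1_le _ _)
  apply add_le_add
  · split_ifs with hc
    · have h1 : (d1 N v * g2 N t) ^ 2 ≤ (L / N) ^ 2 := by
        rw [mul_pow]
        calc d1 N v ^ 2 * g2 N t ^ 2 ≤ d1 N v ^ 2 * 1 :=
              mul_le_mul_of_nonneg_left hg2 (sq_nonneg _)
          _ ≤ (L / N) ^ 2 := by rw [mul_one]; exact d1_bd hL hN0 v
      calc 2 * (d1 N v * g2 N t) ^ 2 * e * W * E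
          = (d1 N v * g2 N t) ^ 2 * (2 * e * W * E) := by ring
        _ ≤ (L / N) ^ 2 * (2 * e * W * E) := mul_le_mul_of_nonneg_right h1 (by positivity)
        _ = 2 * (L / N) ^ 2 * e * E * W := by ring
        _ ≤ 2 * (L / N) ^ 2 * e * E * (K * (1 + t ^ a)) :=
            mul_le_mul_of_nonneg_left hW (by positivity)
        _ = _ := by ring
    · rw [d1_zero hN0 (not_le.1 hc)]
      simp
  · have h1 : (g1 N v * d2 N t) ^ 2 * t ≤
        2 * (L / N) ^ 2 * t + if t ≤ 1 / N then 8 * L ^ 2 / t else 0 := by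
      refine le_trans ?_ (d2_bd hL hN0 hu)
      rw [mul_pow, mul_assoc]
      calc g1 N v ^ 2 * (d2 N t ^ 2 * t) ≤ 1 * (d2 N t ^ 2 * t) :=
            mul_le_mul_of_nonneg_right hg1 (by positivity)
        _ = _ := one_mul _
    have h2 : 2 * (g1 N v * d2 N t) ^ 2 * t * W * E * J2 ≤
        2 * (2 * (L / N) ^ 2 * t + if t ≤ 1 / N then 8 * L ^ 2 / t else 0) * (K * (1 + t ^ a)) *
          E * J2 := by
      calc 2 * (g1 N v * d2 N t) ^ 2 * t * W * E * J2
          = ((g1 N v * d2 N t) ^ 2 * t) * (2 * W * E * J2) := by ring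
        _ ≤ (2 * (L / N) ^ 2 * t + if t ≤ 1 / N then 8 * L ^ 2 / t else 0) * (2 * W * E * J2) :=
            mul_le_mul_of_nonneg_right h1 (by positivity)
        _ = (2 * (2 * (L / N) ^ 2 * t + if t ≤ 1 / N then 8 * L ^ 2 / t else 0) * E * J2) * W := by
            ring
        _ ≤ (2 * (2 * (L / N) ^ 2 * t + if t ≤ 1 / N then 8 * L ^ 2 / t else 0) * E * J2) *
            (K * (1 + t ^ a)) := by
            apply mul_le_mul_of_nonneg_left hW
            have : 0 ≤ (if t ≤ 1 / N then 8 * L ^ 2 / t else 0) := by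
              split_ifs
              · positivity
              · exact le_rfl
            positivity
        _ = _ := by ring
    refine h2.trans ?_
    split_ifs with hc
    · have ht1 : t ≤ 1 := hc.trans (by rw [div_le_iff₀ hN0]; linarith)
      have h3 : t ^ a ≤ 1 := pow_le_one₀ hu.le ht1
      have e1 : 2 * (2 * (L / N) ^ 2 * t + 8 * L ^ 2 / t) * (K * (1 + t ^ a)) * E * J2 =
          4 * (L / N) ^ 2 * K * (t ^ 1 * E * J2 + t ^ (a + 1) * E * J2) +
          16 * L ^ 2 * K * (t⁻¹ * E * J2) * (1 + t ^ a) := by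
        rw [pow_succ, pow_one]
        field_simp
        ring
      rw [e1]
      have h4 : 16 * L ^ 2 * K * (t⁻¹ * E * J2) * (1 + t ^ a) ≤
          16 * L ^ 2 * K * (t⁻¹ * E * J2) * 2 :=
        mul_le_mul_of_nonneg_left (by linarith) (by positivity)
      linarith
    · apply le_of_eq
      rw [pow_succ, pow_one]
      ring

/-- MODULE CUT -/
theorem hCUT (hCAL : StCAL) (hCSD : StCSD) (hMOM : StMOM) (hCU1 : StCU1) : StCUT := by
  intro C hC
  obtain ⟨_, hvs, hvinv, hen⟩ := hCU1 C hC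
  obtain ⟨L, hL0, hL⟩ := th_bd
  obtain ⟨a0, b0, ha0, hab'⟩ := hC.ubd
  have hab : ∀ z ∈ C.U, a0 * C.sz z ≤ C.u z := fun z hz => (hab' z hz).1
  have hU := Uopen C
  have hN : ∀ i : ℕ, (0 : ℝ) < (i : ℝ) + 1 := fun i => by positivity
  have hN1 : ∀ i : ℕ, (1 : ℝ) ≤ (i : ℝ) + 1 := fun i => by
    have : (0 : ℝ) ≤ i := Nat.cast_nonneg i
    linarith
  refine ⟨fun i => chi C (i + 1), fun i => kap C (i + 1), ?_, ?_, ?_, ?_, ?_⟩
  · intro i
    obtain ⟨K, hK, hKc, h⟩ := chi_supp hC (hN i)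
    refine ⟨chi_cd hC hvs (hN i), hKc.of_isClosed_subset (isClosed_tsupport _) h,
      h.trans hK, fun z => ?_⟩
    show 0 ≤ chi C (i + 1) z ∧ chi C (i + 1) z ≤ 1
    unfold chi
    split_ifs
    · exact ⟨mul_nonneg (g1_nonneg _ _) (g2_nonneg _ _),
        mul_le_one₀ (g1_le _ _) (g2_nonneg _ _) (g2_le _ _)⟩
    · exact ⟨le_rfl, zero_le_one⟩
  · intro z hz
    have hu := upos hC hz
    have h1 : ∀ᶠ i : ℕ in atTop, max (C.vv z) (max (C.u z) (1 / C.u z)) ≤ (i : ℝ) := by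
      filter_upwards [eventually_ge_atTop ⌈max (C.vv z) (max (C.u z) (1 / C.u z))⌉₊] with i hi
      exact Nat.ceil_le.1 hi
    filter_upwards [h1] with i hi
    have hi1 : C.vv z ≤ i := (le_max_left _ _).trans hi
    have hi2 : C.u z ≤ i := (le_max_left _ _).trans ((le_max_right _ _).trans hi)
    have hi3 : 1 / C.u z ≤ i := (le_max_right _ _).trans ((le_max_right _ _).trans hi)
    show chi C (i + 1) z = 1
    unfold chi
    rw [if_pos hz]
    have e1 : g1 ((i : ℝ) + 1) (C.vv z) = 1 :=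
      th_one (by rw [div_le_one (hN i)]; linarith)
    have e2 : th (C.u z / ((i : ℝ) + 1)) = 1 :=
      th_one (by rw [div_le_one (hN i)]; linarith)
    have e3 : th (1 / (((i : ℝ) + 1) * C.u z)) = 1 := by
      apply th_one
      rw [div_le_one (mul_pos (hN i) hu)]
      rw [div_le_iff₀ hu] at hi3
      nlinarith
    unfold g2
    rw [e1, e2, e3]
    norm_num
  · intro i c z hc
    have hc0 : c ≠ 0 := by
      intro h
      rw [h, norm_zero] at hc
      exact zero_ne_one hc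
    show chi C (i + 1) (scl C.w c z) = chi C (i + 1) z
    unfold chi
    by_cases hz : z ∈ C.U
    · rw [if_pos hz, if_pos ((scl_mem hC hc0 z).2 hz), hvinv z hz c hc0, hC.uhom z hz c hc0, hc,
        one_mul]
    · rw [if_neg hz, if_neg (fun h => hz ((scl_mem hC hc0 z).1 h))]
  · intro i z hz
    exact ⟨kap_nonneg hC hCSD _ hz, fun ξ => kap_cs hC hCSD hvs (hN i) hz ξ⟩
  · intro a
    obtain ⟨B, hB⟩ := hen a
    obtain ⟨hm1, hm2, _, _⟩ := hMOM C hC
    have hi1 := (hm1 1).1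
    have hi2 := (hm1 (a + 1)).1
    obtain ⟨K, hK⟩ : ∃ K, K = 1 + (a0⁻¹) ^ a := ⟨_, rfl⟩
    have hK0 : 0 ≤ K := by rw [hK]; positivity
    obtain ⟨h2, hh2⟩ : ∃ h2 : (Fin C.m → ℂ) → ℝ, h2 = fun z =>
      C.u z ^ 1 * Real.exp (-C.u z) * ‖ev C.J z‖ ^ 2 +
          C.u z ^ (a + 1) * Real.exp (-C.u z) * ‖ev C.J z‖ ^ 2 := ⟨_, rfl⟩
    obtain ⟨h3, hh3⟩ : ∃ h3 : (Fin C.m → ℂ) → ℝ, h3 = fun z =>
      (C.u z)⁻¹ * Real.exp (-C.u z) * ‖ev C.J z‖ ^ 2 := ⟨_, rfl⟩
    have hI2 : IntegrableOn h2 C.U := by rw [hh2]; exact hi1.add hi2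
    have hI3 : IntegrableOn h3 C.U := by rw [hh3]; exact hm2
    have h2n : ∀ z ∈ C.U, 0 ≤ h2 z := by
      intro z hz
      have := upos hC hz
      rw [hh2]
      positivity
    have h3n : ∀ z ∈ C.U, 0 ≤ h3 z := by
      intro z hz
      have := upos hC hz
      rw [hh3]
      positivity
    obtain ⟨X, hX⟩ : ∃ X : (Fin C.m → ℂ) → ℝ, X = fun z =>
      C.en (fun j => db j (cf C.vv) z) z * ((1 + C.u z ^ a) * Real.exp (-C.u z)) := ⟨_, rfl⟩
    obtain ⟨T, hT⟩ : ∃ T : ℕ → Set (Fin C.m → ℂ), T = fun i : ℕ => {z | z ∈ C.U ∧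
      C.u z ≤ 1 / ((i : ℝ) + 1)} := ⟨_, rfl⟩
    have hTm : ∀ i, MeasurableSet (T i) := by
      intro i
      have h1 : IsOpen (C.U ∩ C.u ⁻¹' Set.Ioi (1 / ((i : ℝ) + 1))) :=
        hC.usm.continuousOn.isOpen_inter_preimage hU isOpen_Ioi
      have e : T i = C.U \ (C.U ∩ C.u ⁻¹' Set.Ioi (1 / ((i : ℝ) + 1))) := by
        ext z
        rw [hT]
        constructor
        · rintro ⟨hz, hu⟩
          exact ⟨hz, fun h => absurd h.2 (not_lt.2 hu)⟩
        · rintro ⟨hz, hn⟩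
          exact ⟨hz, not_lt.1 fun h => hn ⟨hz, h⟩⟩
      rw [e]
      exact hU.measurableSet.diff h1.measurableSet
    have hTU : ∀ i, T i ⊆ C.U := fun i z hz => by rw [hT] at hz; exact hz.1
    have hTt : Tendsto (fun i => ∫ z in T i, h3 z) atTop (𝓝 0) := by
      have h1 : Antitone T := by
        intro i k hik z hz
        rw [hT] at hz ⊢
        refine ⟨hz.1, hz.2.trans ?_⟩
        apply one_div_le_one_div_of_le (hN i)
        have : (i : ℝ) ≤ k := Nat.cast_le.2 hik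
        linarith
      have h2' := tendsto_setIntegral_of_antitone hTm h1 ⟨0, hI3.mono_set (hTU 0)⟩
      have e : (⋂ i, T i) = ∅ := by
        ext z
        simp only [Set.mem_iInter, Set.mem_empty_iff_false, iff_false]
        intro h
        have hz := hTU 0 (h 0)
        have hu := upos hC hz
        obtain ⟨n, hn⟩ := exists_nat_one_div_lt hu
        have h4 := h n
        rw [hT] at h4
        exact absurd h4.2 (not_le.2 hn)
      rw [e] at h2'
      simpa using h2'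
    obtain ⟨r, hr⟩ : ∃ r : ℕ → ℝ, r = fun i : ℕ =>
      2 * (L / ((i : ℝ) + 1)) ^ 2 * K * (|B| * (2 * ((i : ℝ) + 1))) +
        (4 * (L / ((i : ℝ) + 1)) ^ 2 * K * ∫ z in C.U, h2 z) +
        (32 * L ^ 2 * K * ∫ z in T i, h3 z) := ⟨_, rfl⟩
    have hrt : Tendsto r atTop (𝓝 0) := by
      have hs : Tendsto (fun n : ℕ => 1 / ((n : ℝ) + 1)) atTop (𝓝 0) :=
        tendsto_one_div_add_atTop_nhds_zero_nat
      have e : r = fun i : ℕ => (4 * L ^ 2 * K * |B|) * (1 / ((i : ℝ) + 1)) +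
          (4 * L ^ 2 * K * ∫ z in C.U, h2 z) * (1 / ((i : ℝ) + 1) * (1 / ((i : ℝ) + 1))) +
          (32 * L ^ 2 * K) * ∫ z in T i, h3 z := by
        rw [hr]
        funext i
        have := hN i
        field_simp
        ring
      rw [e]
      have := ((hs.const_mul (4 * L ^ 2 * K * |B|)).add
        ((hs.mul hs).const_mul (4 * L ^ 2 * K * ∫ z in C.U, h2 z))).add
          (hTt.const_mul (32 * L ^ 2 * K))
      simpa using this
    have hmain := conv_lemma (volume.restrict C.U)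
      (fun (i : ℕ) z => kap C (i + 1) z * (1 + C.sz z ^ a) * Real.exp (-C.u z) * ‖ev C.J z‖ ^ 2) r
      (fun i => ?_) (fun i => ?_) (fun i => ?_) hrt
    · exact ⟨hmain.1, hmain.2⟩
    · refine ContinuousOn.aestronglyMeasurable ?_ hU.measurableSet
      exact (((kap_cont hC hCAL hvs (hN i)).mul
        (continuousOn_const.add ((sz_cont C).continuousOn.pow a))).mul
          (Real.continuous_exp.comp_continuousOn hC.usm.continuousOn.neg)).mul
            ((MvPolynomial.continuous_eval C.J).norm.continuousOn.pow 2)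
    · refine (ae_restrict_iff' hU.measurableSet).2 (Eventually.of_forall fun z hz => ?_)
      have h1 := kap_nonneg hC hCSD ((i : ℝ) + 1) hz
      have h2 := (hC.Xpos z hz).le
      show 0 ≤ kap C (i + 1) z * (1 + C.sz z ^ a) * Real.exp (-C.u z) * ‖ev C.J z‖ ^ 2
      positivity
    · -- the estimate
      obtain ⟨N, hNd⟩ : ∃ N : ℝ, N = (i : ℝ) + 1 := ⟨_, rfl⟩
      have hNp : 0 < N := hNd ▸ hN i
      obtain ⟨S, hS⟩ : ∃ S : Set (Fin C.m → ℂ), S = {z | z ∈ C.U ∧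
        C.vv z ≤ ((2 * (i + 1) : ℕ) : ℝ)} := ⟨_, rfl⟩
      have hSe : ((2 * (i + 1) : ℕ) : ℝ) = 2 * N := by rw [hNd]; push_cast; ring
      have hSm : MeasurableSet S := by
        have h1 : IsOpen (C.U ∩ C.vv ⁻¹' Set.Ioi ((2 * (i + 1) : ℕ) : ℝ)) :=
          hvs.continuousOn.isOpen_inter_preimage hU isOpen_Ioi
        have e : S = C.U \ (C.U ∩ C.vv ⁻¹' Set.Ioi ((2 * (i + 1) : ℕ) : ℝ)) := by
          ext z
          rw [hS]
          constructor
          · rintro ⟨hz, hu⟩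
            exact ⟨hz, fun h => absurd h.2 (not_lt.2 hu)⟩
          · rintro ⟨hz, hn⟩
            exact ⟨hz, not_lt.1 fun h => hn ⟨hz, h⟩⟩
        rw [e]
        exact hU.measurableSet.diff h1.measurableSet
      have hSU : S ⊆ C.U := fun z hz => by rw [hS] at hz; exact hz.1
      obtain ⟨c1, hc1⟩ : ∃ c1, c1 = 2 * (L / N) ^ 2 * K := ⟨_, rfl⟩
      obtain ⟨c2, hc2⟩ : ∃ c2, c2 = 4 * (L / N) ^ 2 * K := ⟨_, rfl⟩
      obtain ⟨c3, hc3⟩ : ∃ c3, c3 = 32 * L ^ 2 * K := ⟨_, rfl⟩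
      have hc1n : 0 ≤ c1 := by rw [hc1]; positivity
      have hc2n : 0 ≤ c2 := by rw [hc2]; positivity
      have hc3n : 0 ≤ c3 := by rw [hc3]; positivity
      obtain ⟨G, hG⟩ : ∃ G : (Fin C.m → ℂ) → ℝ, G = fun z => c2 * h2 z +
        (T i).indicator (fun z => c3 * h3 z) z := ⟨_, rfl⟩
      have hi3' : IntegrableOn ((T i).indicator fun z => c3 * h3 z) C.U :=
        (hI3.const_mul c3).indicator (hTm i)
      have hGi : IntegrableOn G C.U := by
        rw [hG]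
        exact (hI2.const_mul c2).add hi3'
      have hGn : ∀ z ∈ C.U, 0 ≤ G z := by
        intro z hz
        rw [hG]
        have h1 := h2n z hz
        have h4 := h3n z hz
        have h5 : 0 ≤ (T i).indicator (fun z => c3 * h3 z) z :=
          Set.indicator_apply_nonneg fun _ => mul_nonneg hc3n h4
        positivity
      have hGint : ∫ z in C.U, G z = c2 * (∫ z in C.U, h2 z) + c3 * ∫ z in T i, h3 z := by
        rw [hG, integral_add (hI2.const_mul c2) hi3', integral_const_mul]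
        congr 1
        rw [setIntegral_indicator (hTm i), Set.inter_eq_right.2 (hTU i), integral_const_mul]
      have hpt : ∀ z ∈ C.U, ENNReal.ofReal
          (kap C (i + 1) z * (1 + C.sz z ^ a) * Real.exp (-C.u z) * ‖ev C.J z‖ ^ 2) ≤
          S.indicator (fun z => ENNReal.ofReal (c1 * X z)) z + ENNReal.ofReal (G z) := by
        intro z hz
        have h1 := kap_bd hC hCSD hL ha0 hab a (N := N) (by rw [hNd]; exact hN1 i) hz
        rw [← hNd]
        refine (ENNReal.ofReal_le_ofReal h1).trans ?_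
        refine ENNReal.ofReal_add_le.trans ?_
        apply add_le_add
        · by_cases hc : C.vv z ≤ 2 * N
          · rw [if_pos hc, Set.indicator_of_mem (by rw [hS]; exact ⟨hz, hSe ▸ hc⟩), hX, hc1, hK]
          · rw [if_neg hc, ENNReal.ofReal_zero]
            exact zero_le
        · apply ENNReal.ofReal_le_ofReal
          rw [hG]
          show _ ≤ c2 * h2 z + (T i).indicator (fun z => c3 * h3 z) z
          apply add_le_add
          · rw [hc2, hh2, hK]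
          · by_cases hc : C.u z ≤ 1 / N
            · rw [if_pos hc, Set.indicator_of_mem (by rw [hT]; exact ⟨hz, hNd ▸ hc⟩), hc3, hh3, hK]
            · rw [if_neg hc]
              exact Set.indicator_apply_nonneg fun _ => mul_nonneg hc3n (h3n z hz)
      have hrs : r i = c1 * (|B| * (2 * N)) + ∫ z in C.U, G z := by
        rw [hGint, hr, hc1, hc2, hc3, hNd]
        ring
      have hGm : AEMeasurable (fun z => ENNReal.ofReal (G z)) (volume.restrict C.U) :=
        hGi.aestronglyMeasurable.aemeasurable.ennreal_ofReal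
      have hSint : ∫⁻ z in C.U, S.indicator (fun z => ENNReal.ofReal (c1 * X z)) z ≤
          ENNReal.ofReal (c1 * (|B| * (2 * N))) := by
        rw [setLIntegral_indicator hSm, Set.inter_eq_left.2 hSU]
        have e1 : ∫⁻ z in S, ENNReal.ofReal (c1 * X z) =
            ENNReal.ofReal c1 * ∫⁻ z in S, ENNReal.ofReal (X z) := by
          rw [← lintegral_const_mul' _ _ ENNReal.ofReal_ne_top]
          congr 1
          funext z
          exact ENNReal.ofReal_mul hc1n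
        rw [e1, ENNReal.ofReal_mul hc1n]
        apply mul_le_mul' le_rfl
        have h1 := hB (2 * (i + 1)) (by omega)
        rw [hS, hX]
        refine h1.trans (ENNReal.ofReal_le_ofReal ?_)
        rw [hSe]
        exact mul_le_mul_of_nonneg_right (le_abs_self B) (by positivity)
      calc ∫⁻ z in C.U, ENNReal.ofReal
            (kap C (i + 1) z * (1 + C.sz z ^ a) * Real.exp (-C.u z) * ‖ev C.J z‖ ^ 2)
          ≤ ∫⁻ z in C.U, (S.indicator (fun z => ENNReal.ofReal (c1 * X z)) z +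
              ENNReal.ofReal (G z)) := setLIntegral_mono' hU.measurableSet hpt
        _ = (∫⁻ z in C.U, S.indicator (fun z => ENNReal.ofReal (c1 * X z)) z) +
              ∫⁻ z in C.U, ENNReal.ofReal (G z) := lintegral_add_right' _ hGm
        _ ≤ ENNReal.ofReal (c1 * (|B| * (2 * N))) + ENNReal.ofReal (∫ z in C.U, G z) := by
            apply add_le_add hSint
            rw [ofReal_integral_eq_lintegral_ofReal hGi
              ((ae_restrict_iff' hU.measurableSet).2 (Eventually.of_forall hGn))]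
        _ = ENNReal.ofReal (r i) := by
            rw [hrs, ENNReal.ofReal_add]
            · positivity
            · exact setIntegral_nonneg hU.measurableSet hGn

end Pool.Agent.Helper40.KP.CUT
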