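import Pool.Agent.Helper93.KP.St
import Pool.Agent.Helper15.TW.M_BIL

/-!
# Project KP: module PHA (product of two Kloosterman phases)
-/

set_option autoImplicit false

noncomputable section

namespace Pool.Agent.Helper40.KP

open Finset Filter Topology Pool.Agent.Helper93.KP
open Pool.Agent.Helper15.AB (ee Kl StDB StMT)
open Pool.Agent.Helper9.TW (iv)
open Pool.Agent.Helper15.TW (bil_iv bil_conj)
open Pool.Agent.Helper15.AB.hPQ (ee_congr)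

/-- one phase, written with the denominator `R` -/
private theorem phase (A X g m n h : ℕ) (c : ℤ) (hA : 1 ≤ A) (hX : 1 ≤ X)
    (hgn : Nat.Coprime A (g * n)) (hm : Nat.Coprime m (A * X)) :
    ee (((h * c * (iv A (g * m * n) : ℤ) : ℤ) : ℝ) / (A : ℝ)) =
      ee (((h * c * X * (iv A (g * n) : ℤ) * (iv (A * X) m : ℤ) : ℤ) : ℝ) / ((A * X : ℕ) : ℝ)) := by
  have hmA : Nat.Coprime m A := Nat.Coprime.coprime_dvd_right (Dvd.intro X rfl) hm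
  have h1 : (A : ℤ) ∣ ((g * m * n : ℕ) : ℤ) * (iv A (g * m * n) : ℤ) - 1 := by
    apply bil_iv A (g * m * n) hA
    have e : g * m * n = (g * n) * m := by ring
    rw [e]
    exact Nat.Coprime.mul_left hgn.symm hmA
  have h2 : (A : ℤ) ∣ ((g * n : ℕ) : ℤ) * (iv A (g * n) : ℤ) - 1 := bil_iv A (g * n) hA hgn.symm
  have h3 : (A : ℤ) ∣ (m : ℤ) * (iv (A * X) m : ℤ) - 1 := by
    have h4 := bil_iv (A * X) m (Nat.mul_pos hA hX) hm
    refine dvd_trans ?_ h4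
    push_cast
    exact Dvd.intro _ rfl
  have h5 : (A : ℤ) ∣ (iv A (g * m * n) : ℤ) - (iv A (g * n) : ℤ) * (iv (A * X) m : ℤ) := by
    have e : (iv A (g * m * n) : ℤ) - (iv A (g * n) : ℤ) * (iv (A * X) m : ℤ) =
        (((g * m * n : ℕ) : ℤ) * (iv A (g * m * n) : ℤ) - 1) * ((iv A (g * n) : ℤ) * (iv (A * X) m : ℤ)) -
        (iv A (g * m * n) : ℤ) * ((((g * n : ℕ) : ℤ) * (iv A (g * n) : ℤ) - 1) * ((m : ℤ) * (iv (A * X) m : ℤ)) +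
          ((m : ℤ) * (iv (A * X) m : ℤ) - 1)) := by
      push_cast
      ring
    rw [e]
    exact dvd_sub (Dvd.dvd.mul_right h1 _) (Dvd.dvd.mul_left (dvd_add (Dvd.dvd.mul_right h2 _) h3) _)
  have h6 : ee (((h * c * (iv A (g * m * n) : ℤ) : ℤ) : ℝ) / (A : ℝ)) =
      ee (((h * c * ((iv A (g * n) : ℤ) * (iv (A * X) m : ℤ)) : ℤ) : ℝ) / (A : ℝ)) := by
    apply ee_congr A hA
    have e : (h : ℤ) * c * (iv A (g * m * n) : ℤ) - h * c * ((iv A (g * n) : ℤ) * (iv (A * X) m : ℤ)) =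
        (h * c) * ((iv A (g * m * n) : ℤ) - (iv A (g * n) : ℤ) * (iv (A * X) m : ℤ)) := by ring
    rw [e]
    exact Dvd.dvd.mul_left h5 _
  rw [h6]
  congr 1
  have hA0 : (A : ℝ) ≠ 0 := by
    have : (0 : ℝ) < A := by exact_mod_cast hA
    exact this.ne'
  have hX0 : (X : ℝ) ≠ 0 := by
    have : (0 : ℝ) < X := by exact_mod_cast hX
    exact this.ne'
  push_cast
  field_simp

/-- the greatest common divisor for pairwise coprime factors -/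
private theorem gcd_dvd (D X Y : ℕ) (k Δ : ℤ) (hDX : Nat.Coprime D X) (hDY : Nat.Coprime D Y) (hXY : Nat.Coprime X Y)
    (h1 : ∀ e : ℤ, e ∣ D → e ∣ k → e ∣ Δ) (h2 : ∀ e : ℤ, e ∣ X → e ∣ k → e ∣ Δ)
    (h3 : ∀ e : ℤ, e ∣ Y → e ∣ k → e ∣ Δ) :
    Int.gcd k ((D * X * Y : ℕ) : ℤ) ∣ Int.gcd Δ ((D * X * Y : ℕ) : ℤ) := by
  have key : (Int.gcd k ((D * X * Y : ℕ) : ℤ)) ∣ Δ.natAbs := by
    have e1 : Int.gcd k ((D * X * Y : ℕ) : ℤ) = Nat.gcd k.natAbs (D * X * Y) := by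
      unfold Int.gcd
      rw [Int.natAbs_natCast]
    have c1 : Nat.Coprime (D * X) Y := Nat.Coprime.mul_left hDY hXY
    rw [e1, Nat.Coprime.gcd_mul _ c1, Nat.Coprime.gcd_mul _ hDX]
    have s : ∀ Z : ℕ, (∀ e : ℤ, e ∣ Z → e ∣ k → e ∣ Δ) → Nat.gcd k.natAbs Z ∣ Δ.natAbs := by
      intro Z hZ
      have a1 : ((Nat.gcd k.natAbs Z : ℕ) : ℤ) ∣ (Z : ℤ) := Int.natCast_dvd_natCast.2 (Nat.gcd_dvd_right _ _)
      have a2 : ((Nat.gcd k.natAbs Z : ℕ) : ℤ) ∣ k := Int.natCast_dvd.2 (Nat.gcd_dvd_left _ _)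
      exact Int.natCast_dvd.1 (hZ _ a1 a2)
    refine Nat.Coprime.mul_dvd_of_dvd_of_dvd ?_ (Nat.Coprime.mul_dvd_of_dvd_of_dvd ?_ (s D h1) (s X h2)) (s Y h3)
    · exact Nat.Coprime.coprime_dvd_left
        (Nat.mul_dvd_mul (Nat.gcd_dvd_right _ _) (Nat.gcd_dvd_right _ _))
        (Nat.Coprime.coprime_dvd_right (Nat.gcd_dvd_right _ _) c1)
    · exact Nat.Coprime.coprime_dvd_left (Nat.gcd_dvd_right _ _)
        (Nat.Coprime.coprime_dvd_right (Nat.gcd_dvd_right _ _) hDX)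
  have key2 : ((Int.gcd k ((D * X * Y : ℕ) : ℤ) : ℕ) : ℤ) ∣ Δ := Int.natCast_dvd.2 key
  exact Int.natCast_dvd_natCast.1 (Int.dvd_coe_gcd key2 (Int.gcd_dvd_right _ _))

theorem hPHA : StPHA := by
  intro x y y₁ g n n₁ h h₁ c hc hsq hsq₁ hcop hcop₁
  have hxy : x * y ≠ 0 := Squarefree.ne_zero hsq
  have hxy₁ : x * y₁ ≠ 0 := Squarefree.ne_zero hsq₁
  have hx0 : x ≠ 0 := left_ne_zero_of_mul hxy
  have hy0 : y ≠ 0 := right_ne_zero_of_mul hxy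
  have hy₁0 : y₁ ≠ 0 := right_ne_zero_of_mul hxy₁
  obtain ⟨G, hG⟩ : ∃ G : ℕ, G = Nat.gcd y y₁ := ⟨_, rfl⟩
  have hGpos : 0 < G := by rw [hG]; exact Nat.gcd_pos_of_pos_left _ (Nat.pos_of_ne_zero hy0)
  obtain ⟨Y, hY⟩ : ∃ Y : ℕ, Y = y / G := ⟨_, rfl⟩
  obtain ⟨X, hX⟩ : ∃ X : ℕ, X = y₁ / G := ⟨_, rfl⟩
  have hyG : y = G * Y := by rw [hY, Nat.mul_div_cancel']; rw [hG]; exact Nat.gcd_dvd_left _ _
  have hy₁G : y₁ = G * X := by rw [hX, Nat.mul_div_cancel']; rw [hG]; exact Nat.gcd_dvd_right _ _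
  have hYX : Nat.Coprime Y X := by
    rw [hY, hX, hG]
    exact Nat.coprime_div_gcd_div_gcd (by rw [← hG]; exact hGpos)
  have hX1 : 1 ≤ X := Nat.pos_of_ne_zero (by rintro rfl; simp at hy₁G; exact hy₁0 hy₁G)
  have hY1 : 1 ≤ Y := Nat.pos_of_ne_zero (by rintro rfl; simp at hyG; exact hy0 hyG)
  have hlcm : Nat.lcm y y₁ = G * X * Y := by
    have e1 : Nat.gcd y y₁ * Nat.lcm y y₁ = y * y₁ := Nat.gcd_mul_lcm y y₁
    rw [← hG] at e1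
    have e2 : G * Nat.lcm y y₁ = G * (G * X * Y) := by
      rw [e1, hyG, hy₁G]; ring
    exact Nat.eq_of_mul_eq_mul_left hGpos e2
  obtain ⟨D, hD⟩ : ∃ D : ℕ, D = x * G := ⟨_, rfl⟩
  have hA : x * y = D * Y := by rw [hyG, hD]; ring
  have hA₁ : x * y₁ = D * X := by rw [hy₁G, hD]; ring
  have hR : x * Nat.lcm y y₁ = D * X * Y := by rw [hlcm, hD]; ring
  have hR1 : x * Nat.lcm y y₁ = (x * y) * X := by rw [hR, hA]; ring
  have hR2 : x * Nat.lcm y y₁ = (x * y₁) * Y := by rw [hR, hA₁]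
  have hDY : Nat.Coprime D Y := by
    rw [hA] at hsq
    exact Nat.coprime_of_squarefree_mul hsq
  have hDX : Nat.Coprime D X := by
    rw [hA₁] at hsq₁
    exact Nat.coprime_of_squarefree_mul hsq₁
  have hApos : 1 ≤ x * y := Nat.pos_of_ne_zero hxy
  have hA₁pos : 1 ≤ x * y₁ := Nat.pos_of_ne_zero hxy₁
  rw [← hG, ← hX, ← hY]
  obtain ⟨b, hb⟩ : ∃ b : ℤ, b = (iv (x * y) (g * n) : ℤ) := ⟨_, rfl⟩
  obtain ⟨b₁, hb₁⟩ : ∃ b₁ : ℤ, b₁ = (iv (x * y₁) (g * n₁) : ℤ) := ⟨_, rfl⟩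
  have hbA : ((x * y : ℕ) : ℤ) ∣ (g : ℤ) * n * b - 1 := by
    have := bil_iv (x * y) (g * n) hApos hcop.symm
    rw [← hb] at this
    push_cast at this ⊢
    exact this
  have hbA₁ : ((x * y₁ : ℕ) : ℤ) ∣ (g : ℤ) * n₁ * b₁ - 1 := by
    have := bil_iv (x * y₁) (g * n₁) hA₁pos hcop₁.symm
    rw [← hb₁] at this
    push_cast at this ⊢
    exact this
  rw [hA] at hbA
  rw [hA₁] at hbA₁
  obtain ⟨k, hk⟩ : ∃ k : ℤ, k = h * X * b - h₁ * Y * b₁ := ⟨_, rfl⟩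
  obtain ⟨Δ, hΔ⟩ : ∃ Δ : ℤ, Δ = (h : ℤ) * n₁ * (X : ℤ) - h₁ * n * (Y : ℤ) := ⟨_, rfl⟩
  have hgcd : Int.gcd k ((D * X * Y : ℕ) : ℤ) ∣ Int.gcd Δ ((D * X * Y : ℕ) : ℤ) := by
    have dD : (D : ℤ) ∣ ((D * Y : ℕ) : ℤ) := Int.natCast_dvd_natCast.2 (Dvd.intro _ rfl)
    have dY : (Y : ℤ) ∣ ((D * Y : ℕ) : ℤ) := Int.natCast_dvd_natCast.2 (Dvd.intro_left _ rfl)
    have dD₁ : (D : ℤ) ∣ ((D * X : ℕ) : ℤ) := Int.natCast_dvd_natCast.2 (Dvd.intro _ rfl)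
    have dX : (X : ℤ) ∣ ((D * X : ℕ) : ℤ) := Int.natCast_dvd_natCast.2 (Dvd.intro_left _ rfl)
    apply gcd_dvd D X Y k Δ hDX hDY hYX.symm
    · intro e he hek
      have e1 : Δ = g * n * n₁ * k - h * X * n₁ * (g * n * b - 1) + h₁ * Y * n * (g * n₁ * b₁ - 1) := by
        rw [hΔ, hk]; ring
      rw [e1]
      exact dvd_add (dvd_sub (Dvd.dvd.mul_left hek _)
        (Dvd.dvd.mul_left ((he.trans dD).trans hbA) _)) (Dvd.dvd.mul_left ((he.trans dD₁).trans hbA₁) _)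
    · intro e he hek
      have e1 : Δ = X * (h * n₁ - n * g * n₁ * h * b) + n * g * n₁ * k + h₁ * Y * n * (g * n₁ * b₁ - 1) := by
        rw [hΔ, hk]; ring
      rw [e1]
      exact dvd_add (dvd_add (Dvd.dvd.mul_right he _) (Dvd.dvd.mul_left hek _))
        (Dvd.dvd.mul_left ((he.trans dX).trans hbA₁) _)
    · intro e he hek
      have e1 : Δ = Y * (n₁ * g * n * h₁ * b₁ - h₁ * n) + n₁ * g * n * k - h * X * n₁ * (g * n * b - 1) := by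
        rw [hΔ, hk]; ring
      rw [e1]
      exact dvd_sub (dvd_add (Dvd.dvd.mul_right he _) (Dvd.dvd.mul_left hek _))
        (Dvd.dvd.mul_left ((he.trans dY).trans hbA) _)
  have hRpos : 0 < D * X * Y := by
    rw [← hR, hR1]
    exact Nat.mul_pos hApos hX1
  refine ⟨c * k, ?_, ?_⟩
  · rw [hR, ← hΔ]
    have hgpos : 0 < Int.gcd Δ ((D * X * Y : ℕ) : ℤ) := by
      apply Int.gcd_pos_of_ne_zero_right
      exact_mod_cast hRpos.ne'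
    have l1 : Int.gcd (c * k) ((D * X * Y : ℕ) : ℤ) ≤ c.natAbs * Int.gcd Δ ((D * X * Y : ℕ) : ℤ) := by
      apply Nat.le_of_dvd (Nat.mul_pos (Int.natAbs_pos.2 hc) hgpos)
      have d1 : Int.gcd (c * k) ((D * X * Y : ℕ) : ℤ) ∣
          Int.gcd c ((D * X * Y : ℕ) : ℤ) * Int.gcd k ((D * X * Y : ℕ) : ℤ) := by
        unfold Int.gcd
        rw [Int.natAbs_mul]
        exact Nat.gcd_mul_left_dvd_mul_gcd _ _ _
      have d2 : Int.gcd c ((D * X * Y : ℕ) : ℤ) ∣ c.natAbs := by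
        unfold Int.gcd
        exact Nat.gcd_dvd_left _ _
      exact d1.trans (Nat.mul_dvd_mul d2 hgcd)
    have l2 : ((Int.gcd (c * k) ((D * X * Y : ℕ) : ℤ) : ℕ) : ℝ) ≤
        ((c.natAbs * Int.gcd Δ ((D * X * Y : ℕ) : ℤ) : ℕ) : ℝ) := by exact_mod_cast l1
    have l3 : |(c : ℝ)| = ((c.natAbs : ℕ) : ℝ) := by
      rw [Nat.cast_natAbs, Int.cast_abs]
    rw [l3]
    exact l2.trans_eq (Nat.cast_mul _ _)
  · intro m hm
    have hm1 : Nat.Coprime m ((x * y) * X) := by rw [← hR1]; exact hm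
    have hm2 : Nat.Coprime m ((x * y₁) * Y) := by rw [← hR2]; exact hm
    rw [phase (x * y) X g m n h c hApos hX1 hcop hm1, phase (x * y₁) Y g m n₁ h₁ c hA₁pos hY1 hcop₁ hm2,
      bil_conj, ← hR1, ← hR2, ← hb, ← hb₁, hk]
    congr 1
    push_cast
    ring

end Pool.Agent.Helper40.KP
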